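import Pool.Agent.helper81.CW.Spec2

/-!
# Project cw, module LOW: main lower bound for the volume of the symmetric part
-/

open MeasureTheory Set
open scoped ENNReal

namespace Pool.Agent.helper81.CW

theorem LOW_supp_zero {n : ℕ} (C : Set (E n)) (hC : C.Nonempty) : supp C 0 = 0 := by
  unfold supp
  have h : (fun x : E n => (inner ℝ (0 : E n) x : ℝ)) '' C = {0} := by
    ext y
    constructor
    · rintro ⟨x, -, rfl⟩
      simp
    · intro hy
      obtain ⟨x, hx⟩ := hC
      refine ⟨x, hx, ?_⟩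
      rw [Set.mem_singleton_iff] at hy
      simp [hy]
  rw [h]
  exact csSup_singleton 0

theorem LOW_kap_nonneg (n : ℕ) : 0 ≤ kap n := by
  unfold kap
  apply div_nonneg
  · exact pow_nonneg (Real.sqrt_nonneg _) _
  · apply (Real.Gamma_pos_of_pos _).le
    positivity

theorem LOW (g1 : G1_stmt) (g5 : G5_stmt) (j1 : J1_stmt) (j2 : J2_stmt) (j3 : J3_stmt)
    (j4 : J4_stmt) (j5 : J5_stmt) (j6 : J6_stmt) (j7 : J7_stmt) : LOW_stmt := by
  intro n C hn hC
  obtain ⟨hne, hcomp, hconv, hw, hwid⟩ := id hC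
  obtain ⟨hdiam, -, -⟩ := j2 n C 1 hC
  obtain ⟨z, R, hR0, hR2, hzR⟩ := j1 n C hcomp hne hdiam
  have hRs : R ≤ Real.sqrt (1 / 2) := Real.le_sqrt_of_sq_le hR2
  refine ⟨z, fun x hx => (hzR x hx).trans hRs, ?_⟩
  obtain ⟨hC'0, -⟩ := j3 n C 1 1 z hC one_pos
  set C' : Set (E n) := (fun x => (1 : ℝ) • (x - z)) '' C with hC'def
  rw [one_mul] at hC'0
  have hne' : C'.Nonempty := hne.image _
  have hR' : ∀ x ∈ C', ‖x‖ ≤ R := by
    rintro _ ⟨x, hx, rfl⟩
    simpa using hzR x hx
  obtain ⟨-, hLip, hhom⟩ := j4 n C' R hne' hR0 hR'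
  have hs0 : supp C' 0 = 0 := LOW_supp_zero C' hne'
  -- the support function is continuous
  have hcont : Continuous (supp C') := by
    have hL : LipschitzWith R.toNNReal (supp C') := by
      refine LipschitzWith.of_dist_le_mul fun x y => ?_
      rw [Real.dist_eq, dist_eq_norm, Real.coe_toNNReal R hR0]
      exact hLip x y
    exact hL.continuous
  -- e
  obtain ⟨e, he⟩ : ∃ e : E n → ℝ, ∀ x, e x = |supp C' x / ‖x‖ - 1 / 2| := ⟨_, fun _ => rfl⟩
  have he0 : ∀ x, 0 ≤ e x := fun x => by rw [he]; exact abs_nonneg _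
  have heM : Measurable e := by
    have h1 : e = fun x => |supp C' x / ‖x‖ - 1 / 2| := funext he
    rw [h1]
    exact continuous_abs.measurable.comp ((hcont.measurable.div measurable_norm).sub_const _)
  have heB : ∀ x, e x ≤ R + 1 / 2 := by
    intro x
    rw [he]
    have h1 : |supp C' x| ≤ R * ‖x‖ := by
      have h := hLip x 0
      rw [hs0, sub_zero, sub_zero] at h
      exact h
    have h2 : |supp C' x / ‖x‖| ≤ R := by
      rw [abs_div, abs_norm]
      by_cases hx : ‖x‖ = 0
      · rw [hx, div_zero]; exact hR0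
      · have hxp : 0 < ‖x‖ := lt_of_le_of_ne (norm_nonneg x) (Ne.symm hx)
        rw [div_le_iff₀ hxp]
        exact h1
    have h3 := abs_sub (supp C' x / ‖x‖) (1 / 2)
    have h4 : |(1 / 2 : ℝ)| = 1 / 2 := abs_of_pos (by norm_num)
    linarith
  -- f
  obtain ⟨ph, hph⟩ : ∃ ph : ℝ → ℝ, ∀ t, ph t = -(1 / 2 + t) + Real.sqrt ((1 / 2 + t) ^ 2 + 1 - R ^ 2) :=
    ⟨_, fun _ => rfl⟩
  have hphC : Continuous ph := by
    have h1 : ph = fun t => -(1 / 2 + t) + Real.sqrt ((1 / 2 + t) ^ 2 + 1 - R ^ 2) := funext hph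
    rw [h1]
    fun_prop
  have hph1 : ∀ t, 0 ≤ t → (Real.sqrt 3 - 1) / 2 - t ≤ ph t ∧ 0 ≤ ph t ∧ ph t ≤ 1 := by
    intro t ht
    rw [hph]
    exact j7 R t hR0 hR2 ht
  have hfM : Measurable fun x => ph (e x) := hphC.measurable.comp heM
  have hfhom : ∀ (x : E n) (t : ℝ), 0 < t → ph (e (t • x)) = ph (e x) := by
    intro x t ht
    have h1 : e (t • x) = e x := by
      rw [he, he, hhom x t ht.le, norm_smul, Real.norm_of_nonneg ht.le,
        mul_div_mul_left _ _ ht.ne']
    rw [h1]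
  have hG5 := g5 n (fun x => ph (e x)) hn hfM (fun x => (hph1 _ (he0 x)).2.1)
    (fun x => (hph1 _ (he0 x)).2.2) hfhom
  -- the integral
  haveI : IsProbabilityMeasure (gm n) := (g1 n).1
  have heI : Integrable e (gm n) := by
    refine Integrable.of_bound heM.aestronglyMeasurable (R + 1 / 2) ?_
    refine Filter.Eventually.of_forall fun x => ?_
    rw [Real.norm_of_nonneg (he0 x)]
    exact heB x
  have hfI : Integrable (fun x => ph (e x)) (gm n) := by
    refine Integrable.of_bound hfM.aestronglyMeasurable 1 ?_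
    refine Filter.Eventually.of_forall fun x => ?_
    rw [Real.norm_of_nonneg (hph1 _ (he0 x)).2.1]
    exact (hph1 _ (he0 x)).2.2
  have hJ6 : ∫ x, e x ∂(gm n) ≤ R / Real.sqrt n := by
    have h := j6 n C' R hn hC'0 hR0 hR'
    have h1 : (fun x => |supp C' x / ‖x‖ - 1 / 2|) = e := (funext he).symm
    rw [h1] at h
    exact h
  have hRn : R / Real.sqrt n ≤ 1 / Real.sqrt (2 * n) := by
    have h1 : Real.sqrt (1 / 2) / Real.sqrt n = 1 / Real.sqrt (2 * n) := by
      rw [Real.sqrt_mul (by norm_num : (0 : ℝ) ≤ 2), Real.sqrt_div (by norm_num : (0 : ℝ) ≤ 1),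
        Real.sqrt_one, div_div]
    rw [← h1]
    exact div_le_div_of_nonneg_right hRs (Real.sqrt_nonneg _)
  have hint : (Real.sqrt 3 - 1) / 2 - 1 / Real.sqrt (2 * n) ≤ ∫ x, ph (e x) ∂(gm n) := by
    have h1 : ∫ x, ((Real.sqrt 3 - 1) / 2 - e x) ∂(gm n) ≤ ∫ x, ph (e x) ∂(gm n) := by
      refine integral_mono ((integrable_const _).sub heI) hfI fun x => ?_
      exact (hph1 _ (he0 x)).1
    rw [integral_sub (integrable_const _) heI, integral_const] at h1
    rw [probReal_univ, smul_eq_mul, one_mul] at h1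
    linarith
  have hint0 : 0 ≤ ∫ x, ph (e x) ∂(gm n) :=
    integral_nonneg fun x => (hph1 _ (he0 x)).2.1
  -- the inclusion
  have hsub : {x : E n | ‖x‖ ≤ ph (e x)} ⊆ {x : E n | z + x ∈ C ∧ z - x ∈ C} := by
    intro x hx
    have hx' : ‖x‖ ≤ ph (e x) := hx
    have key : ‖x‖ ^ 2 + 2 * max (supp C' x) (supp C' (-x)) + R ^ 2 ≤ 1 := by
      by_cases hx0 : x = 0
      · subst hx0
        rw [neg_zero, hs0, max_self, norm_zero]
        linarith
      · have hxp : 0 < ‖x‖ := norm_pos_iff.mpr hx0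
        have hsum : supp C' x + supp C' (-x) = ‖x‖ := by
          have h1 : ‖(‖x‖⁻¹ : ℝ) • x‖ = 1 := by
            rw [norm_smul, norm_inv, norm_norm, inv_mul_cancel₀ hxp.ne']
          have h2 := hC'0.2.2.2.2 _ h1
          rw [← smul_neg, hhom x _ (inv_nonneg.mpr hxp.le), hhom (-x) _ (inv_nonneg.mpr hxp.le),
            ← mul_add] at h2
          field_simp at h2
          linarith
        have ht : max (supp C' x) (supp C' (-x)) = ‖x‖ * (1 / 2 + e x) := by
          have h3 : supp C' x = ‖x‖ * (supp C' x / ‖x‖) := by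
            field_simp
          have h4 : supp C' (-x) = ‖x‖ * (1 - supp C' x / ‖x‖) := by
            have : supp C' (-x) = ‖x‖ - supp C' x := by linarith
            rw [this, mul_sub, ← h3, mul_one]
          rw [he]
          generalize supp C' x / ‖x‖ = d at h3 h4 ⊢
          rw [h3, h4]
          rcases le_total d (1 / 2) with hd | hd
          · rw [max_eq_right (by nlinarith), abs_of_nonpos (by linarith)]
            ring
          · rw [max_eq_left (by nlinarith), abs_of_nonneg (by linarith)]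
            ring
        rw [ht]
        rw [hph] at hx'
        have h5 : ‖x‖ + (1 / 2 + e x) ≤ Real.sqrt ((1 / 2 + e x) ^ 2 + 1 - R ^ 2) := by linarith
        have h6 : 0 ≤ ‖x‖ + (1 / 2 + e x) := by
          have := he0 x
          linarith
        have h7 : 0 ≤ (1 / 2 + e x) ^ 2 + 1 - R ^ 2 := by nlinarith [sq_nonneg (1 / 2 + e x)]
        have h8 : (‖x‖ + (1 / 2 + e x)) ^ 2 ≤ (1 / 2 + e x) ^ 2 + 1 - R ^ 2 := by
          have h9 := pow_le_pow_left₀ h6 h5 2
          rwa [Real.sq_sqrt h7] at h9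
        nlinarith
    obtain ⟨hm1, hm2⟩ := j5 n C' R hC'0 hR0 hR' x key
    rw [hC'def] at hm1 hm2
    obtain ⟨y, hy, hyx⟩ := hm1
    obtain ⟨y', hy', hyx'⟩ := hm2
    simp only [one_smul] at hyx hyx'
    constructor
    · have : z + x = y := by rw [← hyx]; abel
      rw [this]; exact hy
    · have : z - x = y' := by
        have h : z - x = z + -x := sub_eq_add_neg _ _
        rw [h, ← hyx']; abel
      rw [this]; exact hy'
  refine le_trans ?_ (hG5.trans (measure_mono hsub))
  apply ENNReal.ofReal_le_ofReal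
  apply mul_le_mul_of_nonneg_left _ (LOW_kap_nonneg n)
  exact pow_le_pow_left₀ (le_max_right _ _) (max_le hint hint0) n

end Pool.Agent.helper81.CW
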